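import Mathlib
import Pool.Agent.H68.TS.Base
import Pool.Graph.R_seed8.Results.MP_0f2167_co.RowsAndColumns

/-!
# Symmetric latin squares balanced for ordered triads in rows and in columns, for all orders

For EVERY order `n ≥ 3` there are `n - 1` SYMMETRIC latin squares of order `n` such that every ordered
triad of distinct symbols occurs exactly once in the rows of the squares (three consecutive cells, read
from left to right) and exactly once in the columns. In particular triad-balanced families exist for
all `n ≥ 3`.

The library has families balanced in the rows for all orders (`AllOrders`) and symmetric ones for the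
orders which are not divisible by `4` and for `4` and `8` (`RowsAndColumns`); its doubling
construction for the multiples of `4` is not compatible with the columns. New here: all orders, by a
doubling construction for symmetric squares. From a family of even order `n` we obtain one of order
`2 * n` as follows. The new squares lie over the old ones, by a folding of the rows and of the columns
and for three squares over one special square by the folding and two zigzags. The second coordinate is
the sum of a symmetric function of the row and of the column below and of two functions of the new row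
and of the new column. All but one of the symmetric functions are elementary; the remaining one is a
symmetric function `v` with values in `F_2` such that in every row `i` any three consecutive pairs
`(v (i, j), v (n - 1 - i, n - 1 - j))` are distinct and `v (i, 0) ≠ v (i, 1)`. It is given by a formula
of period three in `i + j`, corrected at the border (`Pool/Agent/H68/TS/V.lean`).
-/

set_option autoImplicit false

namespace Pool.Agent.Results.MP_0f2167_co.SymmetricSquares

/-- `L` is a latin square of order `n` on the symbols `Fin n`: every row and every column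
contains every symbol exactly once. -/
def IsLatinSquare {n : ℕ} (L : Fin n → Fin n → Fin n) : Prop :=
  (∀ i, Function.Bijective fun j => L i j) ∧ (∀ j, Function.Bijective fun i => L i j)

/-- The ordered triad `(a, b, c)` stands in row `i` of `L` in the consecutive columns
`j`, `j + 1`, `j + 2` (columns are numbered from `0` and are not read cyclically). -/
def InRow {n : ℕ} (L : Fin n → Fin n → Fin n) (i : Fin n) (j : ℕ) (a b c : Fin n) : Prop :=
  ∃ h : j + 2 < n, L i ⟨j, by omega⟩ = a ∧ L i ⟨j + 1, by omega⟩ = b ∧ L i ⟨j + 2, h⟩ = c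

/-- The ordered triad `(a, b, c)` stands in column `j` of `L` in the consecutive rows
`i`, `i + 1`, `i + 2` (not read cyclically). -/
def InColumn {n : ℕ} (L : Fin n → Fin n → Fin n) (i : ℕ) (j : Fin n) (a b c : Fin n) : Prop :=
  ∃ h : i + 2 < n, L ⟨i, by omega⟩ j = a ∧ L ⟨i + 1, by omega⟩ j = b ∧ L ⟨i + 2, h⟩ j = c

/-- The family `L 0, …, L (n - 2)` of `n - 1` latin squares of order `n` is triad-balanced (in the
rows): every ordered triad of distinct symbols occurs in a row of exactly one square, and exactly
once there. -/
def TriadBalanced {n : ℕ} (L : Fin (n - 1) → Fin n → Fin n → Fin n) : Prop :=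
  (∀ k, IsLatinSquare (L k)) ∧
  ∀ a b c : Fin n, a ≠ b → a ≠ c → b ≠ c →
    ∃! t : Fin (n - 1) × Fin n × ℕ, InRow (L t.1) t.2.1 t.2.2 a b c

/-- The family of `n - 1` latin squares of order `n` is triad-balanced in the columns: every
ordered triad of distinct symbols occurs in a column of exactly one square, and exactly once
there. -/
def ColumnBalanced {n : ℕ} (L : Fin (n - 1) → Fin n → Fin n → Fin n) : Prop :=
  (∀ k, IsLatinSquare (L k)) ∧
  ∀ a b c : Fin n, a ≠ b → a ≠ c → b ≠ c →
    ∃! t : Fin (n - 1) × ℕ × Fin n, InColumn (L t.1) t.2.1 t.2.2 a b c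

theorem finish (n : ℕ) (hn : 3 ≤ n) (S K : Type) [Fintype S] [Fintype K]
    (hS : Fintype.card S = n) (hK : Fintype.card K + 1 = n) (L : K → ℕ → ℕ → S)
    (inj : ∀ k i a b, i < n → a < n → b < n → L k i a = L k i b → a = b)
    (sym : ∀ k i j, i < n → j < n → L k i j = L k j i)
    (tri : ∀ a b c : S, a ≠ b → b ≠ c → a ≠ c → ∃ k i j, i < n ∧ j + 2 < n ∧ L k i j = a ∧
      L k i (j + 1) = b ∧ L k i (j + 2) = c) :
    ∃ L' : Fin (n - 1) → Fin n → Fin n → Fin n, TriadBalanced L' ∧
      ∀ k i j, L' k i j = L' k j i := by
  classical
  let eS : S ≃ Fin n := Fintype.equivFinOfCardEq hS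
  let eK : K ≃ Fin (n - 1) := Fintype.equivFinOfCardEq (by omega)
  let L' : Fin (n - 1) → Fin n → Fin n → Fin n := fun k i j => eS (L (eK.symm k) i j)
  have hsym : ∀ k i j, L' k i j = L' k j i := by
    intro k i j
    show eS _ = eS _
    rw [sym _ _ _ i.isLt j.isLt]
  have hrow : ∀ k i, Function.Injective fun j => L' k i j := by
    intro k i a b hab
    have h1 : L (eK.symm k) i a = L (eK.symm k) i b := eS.injective hab
    exact Fin.ext (inj _ _ _ _ i.isLt a.isLt b.isLt h1)
  have hex : ∀ a b c : Fin n, a ≠ b → a ≠ c → b ≠ c →
      ∃ (k : Fin (n - 1)) (i : Fin n) (j : ℕ), InRow (L' k) i j a b c := by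
    intro a b c hab hac hbc
    obtain ⟨k, i, j, hi, hj, h1, h2, h3⟩ := tri (eS.symm a) (eS.symm b) (eS.symm c)
      (by simpa using hab) (by simpa using hbc) (by simpa using hac)
    exact ⟨eK k, ⟨i, hi⟩, j, hj, by simp [L', h1], by simp [L', h2], by simp [L', h3]⟩
  refine ⟨L', ⟨fun k => ⟨fun i => Finite.injective_iff_bijective.1 (hrow k i), fun j => ?_⟩, ?_⟩,
    hsym⟩
  · have h1 := Finite.injective_iff_bijective.1 (hrow k j)
    have h2 : (fun i => L' k i j) = fun i => L' k j i := funext fun i => hsym k i j
    rw [h2]
    exact h1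
  -- the map from positions to embeddings
  let Φ : Fin (n - 1) × Fin n × Fin (n - 2) → (Fin 3 ↪ Fin n) := fun t =>
    ⟨fun s => L' t.1 t.2.1 ⟨t.2.2 + s, by have := t.2.2.isLt; have := s.isLt; omega⟩, by
      intro x y hxy
      have := hrow t.1 t.2.1 hxy
      have h2 := congrArg Fin.val this
      simp only at h2
      exact Fin.ext (by omega)⟩
  have hsurj : Function.Surjective Φ := by
    intro e
    obtain ⟨k, i, j, hj, h1, h2, h3⟩ := hex (e 0) (e 1) (e 2) (by simp) (by simp) (by simp)
    refine ⟨(k, i, ⟨j, by omega⟩), ?_⟩
    apply DFunLike.ext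
    intro s
    fin_cases s
    · exact h1
    · exact h2
    · exact h3
  have hcard : Fintype.card (Fin (n - 1) × Fin n × Fin (n - 2)) = Fintype.card (Fin 3 ↪ Fin n) := by
    rw [Fintype.card_embedding_eq, Fintype.card_prod, Fintype.card_prod]
    simp only [Fintype.card_fin]
    obtain ⟨m, rfl⟩ : ∃ m, n = m + 3 := ⟨n - 3, by omega⟩
    simp only [Nat.descFactorial_succ, Nat.descFactorial_zero]
    have e1 : m + 3 - 1 = m + 2 := by omega
    have e2 : m + 3 - 2 = m + 1 := by omega
    rw [e1, e2]
    simp only [Nat.sub_zero, Nat.mul_one]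
    ring
  have hinj : Function.Injective Φ :=
    ((Fintype.bijective_iff_surjective_and_card Φ).2 ⟨hsurj, hcard⟩).1
  intro a b c hab hac hbc
  obtain ⟨k, i, j, ho⟩ := hex a b c hab hac hbc
  refine ⟨(k, i, j), ho, ?_⟩
  rintro ⟨k', i', j'⟩ ho'
  obtain ⟨hj, h1, h2, h3⟩ := ho
  obtain ⟨hj', h1', h2', h3'⟩ := ho'
  simp only at hj hj' h1 h2 h3 h1' h2' h3'
  have : Φ (k', i', ⟨j', by omega⟩) = Φ (k, i, ⟨j, by omega⟩) := by
    apply DFunLike.ext
    intro s
    fin_cases s
    · exact h1'.trans h1.symm
    · exact h2'.trans h2.symm
    · exact h3'.trans h3.symm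
  have := hinj this
  simp only [Prod.mk.injEq, Fin.mk.injEq] at this
  obtain ⟨rfl, rfl, rfl⟩ := this
  rfl

/-- A triad-balanced family of symmetric squares is column-balanced. -/
theorem column_of_row {n : ℕ} {L : Fin (n - 1) → Fin n → Fin n → Fin n}
    (h : TriadBalanced L) (hs : ∀ k i j, L k i j = L k j i) : ColumnBalanced L :=
  RowsAndColumns.column_of_row h hs

/-- **For every order `n ≥ 3` there is a triad-balanced family of `n - 1` symmetric latin squares;
it is triad-balanced in the columns as well.** -/
theorem result (n : ℕ) (hn : 3 ≤ n) :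
    ∃ L : Fin (n - 1) → Fin n → Fin n → Fin n,
      TriadBalanced L ∧ ColumnBalanced L ∧ ∀ k i j, L k i j = L k j i := by
  have key : ∃ L : Fin (n - 1) → Fin n → Fin n → Fin n, TriadBalanced L ∧
      ∀ k i j, L k i j = L k j i := by
    by_cases h : n % 2 = 0 ∧ 6 ≤ n
    · obtain ⟨S, K, iS, iK, L, cj, b1, b2, -, -, hS, hK, -, D⟩ :=
        Pool.Agent.H68.TS.data_all n h.1 h.2
      exact finish n hn S K hS hK L D.inj D.sym D.tri
    · obtain ⟨L, hL, hL'⟩ := RowsAndColumns.result n hn
      exact ⟨L, hL, (hL' (by omega)).1⟩
  obtain ⟨L, hL, hs⟩ := key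
  exact ⟨L, hL, column_of_row hL hs, hs⟩

end Pool.Agent.Results.MP_0f2167_co.SymmetricSquares
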